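import Pool.Agent.Helper3.ENT.Mem
import Pool.Agent.Helper81.MT.Img

/-! IMAGES OF SYSTEMS UNDER POLYNOMIAL MAPS: unit directions and entropies. For helper40's [STO-PB]. -/

set_option autoImplicit false

namespace Pool.Agent.Helper47.PB

open Finset Filter Topology Matrix Pool.Agent.Helper69.RK Pool.Agent.Helper31.EC Pool.Agent.Helper31.EC.Sp
open Pool.Agent.Helper40.EL Pool.Agent.Helper89.LX Pool.Agent.Helper84.MT
open Pool.Agent.Helper29.MX Pool.Agent.Helper3.MX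
open Pool.Agent.Helper36.AM (HQ HQ_eq volO)
open Pool.Agent.Helper24.PR (ovl)
open Pool.Agent.Helper52.SL (cv cv_dg)

noncomputable section

variable {S T : Sp} {M N : ℕ} {v κ : ℕ} {E E' : ℕ → ℕ} {ι : Type}

/-- UNIT DIRECTIONS of another point with the same windows whose cells know the cells of the point -/
theorem ud_near {s : MSys S M E ι} {t : MSys S N E' ι} {i : ι} (hw : ∀ (c : ℝ), (t.lf i).win c = (s.lf i).win c)
    (hc : ∀ (T : Sp) (p : Pj T S) (A : ∀ k, (T.F k).Ω → Prop) (_ : 0 < ul (T.pr A)) (c : ℝ), 0 ≤ c → c ≤ 1 →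
      Nul (Sp.im p A) fun k => h (fc (Setoid.ker ((s.Q.im p A).cellv c k))) (fc (Setoid.ker ((t.Q.im p A).cellv c k))))
    (hu : Ud v s i) : Ud v t i := by
  intro T p A hA c c' h0 h1 h2
  refine (hu T p A hA c c' h0 h1 h2).trans ?_
  have u1 := UB_cell (s.Q.im p A) c' (((s.im p A hA).lf i).win c)
  have u2 := UB_cell (t.Q.im p A) c' (((t.im p A hA).lf i).win c)
  have hN := hc T p A hA c' (h0.trans h1) h2
  have t2 := (ul_tendsto u2).add hN
  rw [add_zero] at t2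
  refine le_of_tendsto_of_tendsto (ul_tendsto u1) t2 (Eventually.of_forall fun k => ?_)
  have hpos := ((Sp.im p A).F k).pos
  have ew : ((t.im p A hA).lf i).win c k = ((s.im p A hA).lf i).win c k := by
    have h3 : ((t.im p A hA).lf i).win c k = FSp.imap (p.fp k) (A k) ((t.lf i).win c k) := rfl
    have h4 : ((s.im p A hA).lf i).win c k = FSp.imap (p.fp k) (A k) ((s.lf i).win c k) := rfl
    rw [h3, h4, hw]
  set x : FL ((Sp.im p A).F k) := fc (Setoid.ker ((s.Q.im p A).cellv c' k)) with hx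
  set y : FL ((Sp.im p A).F k) := fc (Setoid.ker ((t.Q.im p A).cellv c' k)) with hy
  set w : FL ((Sp.im p A).F k) := ((s.im p A hA).lf i).win c k with hw'
  have h5 : h x w ≤ h y w + h x y := by
    have a1 := h_triangle' x y w
    have a2 : h x (y ⊔ w) ≤ h x y := h_anti le_sup_left
    linarith
  have h6 : h x w / ((Sp.im p A).F k).n ≤ h y w / ((Sp.im p A).F k).n + h x y / ((Sp.im p A).F k).n := by
    rw [← add_div]
    exact div_le_div_of_nonneg_right h5 hpos.le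
  refine h6.trans (le_of_eq ?_)
  exact congrArg (fun z => h y z / ((Sp.im p A).F k).n + h x y / ((Sp.im p A).F k).n) ew.symm

/-- UNIT DIRECTIONS OF AN IMAGE, if the cells of the image know the cells of the point -/
theorem ud_img {s : MSys S M E ι} {P : PMap S M N κ} {hκ : 1 ≤ κ} {hE : ∀ D, E (κ * D) ≤ E' D} {i : ι}
    (hc : ∀ (T : Sp) (p : Pj T S) (A : ∀ k, (T.F k).Ω → Prop) (_ : 0 < ul (T.pr A)) (c : ℝ), 0 ≤ c → c ≤ 1 →
      Nul (Sp.im p A) fun k => h (fc (Setoid.ker ((s.Q.im p A).cellv c k)))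
        (fc (Setoid.ker (((P.val s.Q).im p A).cellv c k))))
    (hu : Ud v s i) : Ud v (s.img P hκ hE) i := ud_near (s := s) (t := s.img P hκ hE) (fun _ => rfl) hc hu

/-- INV(v) of an image -/
theorem inv_img {s : MSys S M E ι} {P : PMap S M N κ} {hκ : 1 ≤ κ} {hE : ∀ D, E (κ * D) ≤ E' D}
    (hc : ∀ (T : Sp) (p : Pj T S) (A : ∀ k, (T.F k).Ω → Prop) (_ : 0 < ul (T.pr A)) (c : ℝ), 0 ≤ c → c ≤ 1 →
      Nul (Sp.im p A) fun k => h (fc (Setoid.ker ((s.Q.im p A).cellv c k)))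
        (fc (Setoid.ker (((P.val s.Q).im p A).cellv c k))))
    (hu : Inv v s) : Inv v (s.img P hκ hE) := ⟨hu.1, fun i => ud_img hc (hu.2 i)⟩

/-- THE ENTROPY OVER A LABEL of the window `0` is the entropy -/
theorem HQ_ovl [Countable ι] (s : MSys S M E ι) (l : Lab S) (hl : s.DMc 0 l) :
    HQ (ovl s l fun i => hl (some i)) 0 = HQ s 0 := by
  set t := ovl s l fun i => hl (some i) with ht
  have h1 := t.kap_isKap 0
  have h2 : (t.kap 0).IsMaxf (fun i => l.up 1 one_pos (s.cnd 0 i)) := by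
    have h3 : t.cnd 0 = fun i => l.up 1 one_pos (s.cnd 0 i) := Pool.Agent.Helper24.PR.cnd_ovl s l (fun i => hl (some i)) 0
    have h4 : (t.kap 0).IsMaxf (t.cnd 0) := h1
    rwa [h3] at h4
  have h5 : s.IsKap 0 (l.comp 1 one_pos (t.kap 0)) := Lab.IsMaxf.comp_max (i := none) hl h2 (pcd_Bd s.Q)
  rw [← HQ_eq s h5, l.H_comp 1 one_pos, one_mul]
  have h6 : t.Q.dg 1 = l.upL 1 one_pos (s.Q.dg 1) := cv_dg l s.Q 1
  unfold HQ
  rw [h6]

theorem HQ_ovl_le [Countable ι] (s : MSys S M E ι) (l : Lab S) (hl : s.DMc 0 l) :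
    HQ (ovl s l fun i => hl (some i)) 0 ≤ HQ s 0 := (HQ_ovl s l hl).le

/-- THE ENTROPY OF AN IMAGE whose point knows the point -/
theorem HQ_img_le [Countable ι] {s : MSys S M E ι} {P : PMap S M N κ} {hκ : 1 ≤ κ} {hE : ∀ D, E (κ * D) ≤ E' D}
    (hP : PLe (pcd s.Q) (pcd (P.val s.Q))) (c : ℝ) : HQ (s.img P hκ hE) c ≤ HQ s c := by
  have h1 : (s.img P hκ hE).IsKap c (s.kap c) := (MSys.IsKap_img_iff hP).2 (s.kap_isKap c)
  rw [← HQ_eq _ h1]
  have h2 : (s.img P hκ hE).Q.dg 1 ≤ s.Q.dg 1 := P.val_dg_le s.Q 1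
  exact H_mono (up1_mono _ h2)

end

end Pool.Agent.Helper47.PB
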